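import Pool.Agent.Helper69.UX.StA
import Pool.Agent.Helper69.UX.StD

/-!
# Project UX (MP_e12aa9_pr), module NIT
-/

set_option autoImplicit false

namespace Pool.Agent.Helper16.UX

open Finset Filter Pool.Agent.Helper82.CN Pool.Agent.Helper11.PV Pool.Agent.Helper69.VX
  Pool.Agent.Helper69.UX

open Classical in
lemma nit_mem {V : Type} [Fintype V] {P : Finset (Finset V)} (h : P ∈ Pt V) :
    (∀ A ∈ P, A.Nonempty) ∧ (∀ A ∈ P, ∀ B ∈ P, A ≠ B → Disjoint A B) ∧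
      ∀ v : V, ∃ A ∈ P, v ∈ A := by
  unfold Pt at h
  exact (Finset.mem_filter.1 h).2

lemma nit_sumcard {n : ℕ} {Q : Finset (Finset (Fin n))} (h : Q ∈ Pt (Fin n)) :
    ∑ A ∈ Q, A.card = n := by
  obtain ⟨-, h2, h3⟩ := nit_mem h
  have h4 := Finset.card_biUnion (s := Q) (t := fun A => A)
    (fun A hA B hB hAB => h2 A hA B hB hAB)
  rw [← h4]
  have h5 : Q.biUnion (fun A => A) = univ := by
    ext v
    simp only [Finset.mem_biUnion, Finset.mem_univ, iff_true]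
    exact h3 v
  rw [h5, Finset.card_univ, Fintype.card_fin]

lemma nit_mxb {n : ℕ} (Q : Finset (Finset (Fin n))) (A : Finset (Fin n)) : mxb Q A ≤ A.card := by
  unfold mxb
  exact Finset.sup_le fun B _ => Finset.card_le_card Finset.inter_subset_left

/-- the powers of the tilt -/
lemma nit_alg (n N N₀ S d T : ℕ) (a ξ ζ z : ℝ) (hn : 1 ≤ n) (hT : 1 ≤ T) (hN : 1 ≤ N)
    (h1 : n = N₀ + S) (h2 : N = N₀ + d) (h3 : d ≤ S) (hξ : ξ = (N : ℝ) * n / T)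
    (hζ : ζ = (T : ℝ) * (n : ℝ) ^ (a - 1)) (hz : z = ξ * ζ) :
    (ξ ^ n)⁻¹ * (N.factorial : ℝ) * z ^ (n - N) * (ζ ^ S)⁻¹ ≤
      ((T : ℝ) / n) ^ N₀ * (n : ℝ) ^ (-a * ((N : ℝ) - N₀)) := by
  have hn0 : (0 : ℝ) < n := by exact_mod_cast hn
  have hT0 : (0 : ℝ) < T := by exact_mod_cast hT
  have hN0 : (0 : ℝ) < N := by exact_mod_cast hN
  have hξ0 : 0 < ξ := by rw [hξ]; positivity
  have hζ0 : 0 < ζ := by rw [hζ]; positivity
  have hz0 : 0 < z := by rw [hz]; positivity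
  have hzN : z = N * (n : ℝ) ^ a := by
    rw [hz, hξ, hζ]
    have e : (n : ℝ) ^ a = (n : ℝ) ^ (a - 1) * n := by
      rw [Real.rpow_sub_one hn0.ne']
      field_simp
    rw [e]
    field_simp
  have e1 : n - N = S - d := by omega
  have e2 : (ξ ^ n)⁻¹ * (N.factorial : ℝ) * z ^ (n - N) * (ζ ^ S)⁻¹ =
      (N.factorial : ℝ) * ((ξ ^ N₀)⁻¹ * (z ^ d)⁻¹) := by
    rw [e1, pow_sub₀ _ hz0.ne' h3]
    have e3 : ξ ^ n = ξ ^ N₀ * ξ ^ S := by rw [h1, pow_add]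
    rw [e3]
    have e4 : z ^ S = ξ ^ S * ζ ^ S := by rw [hz, mul_pow]
    rw [e4]
    field_simp
  have e5 : (N.factorial : ℝ) ≤ (N : ℝ) ^ N := by exact_mod_cast Nat.factorial_le_pow N
  have e6 : (N : ℝ) ^ N = (N : ℝ) ^ N₀ * (N : ℝ) ^ d := by
    rw [← pow_add, ← h2]
  have e7 : (N : ℝ) - N₀ = d := by
    rw [h2]; push_cast; ring
  rw [e2, e7]
  calc (N.factorial : ℝ) * ((ξ ^ N₀)⁻¹ * (z ^ d)⁻¹)
      ≤ ((N : ℝ) ^ N₀ * (N : ℝ) ^ d) * ((ξ ^ N₀)⁻¹ * (z ^ d)⁻¹) := by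
        apply mul_le_mul_of_nonneg_right _ (by positivity)
        rw [← e6]; exact e5
    _ = ((N : ℝ) / ξ) ^ N₀ * ((N : ℝ) / z) ^ d := by
        rw [div_pow, div_pow]; field_simp
    _ = ((T : ℝ) / n) ^ N₀ * (n : ℝ) ^ (-a * (d : ℝ)) := by
        congr 1
        · congr 1
          rw [hξ]; field_simp
        · rw [Real.rpow_mul_natCast hn0.le]
          congr 1
          rw [hzN, Real.rpow_neg hn0.le]
          field_simp

/-- the weights -/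
noncomputable def gN (p ξ ρ : ℝ) (T v : ℕ) : ℝ :=
  if 1 ≤ v ∧ v ≤ T + 1 then (1 - p) ^ (v.choose 2) * ξ ^ v * ρ else 0

lemma gN_pw {n T : ℕ} (p ξ ρ : ℝ) {Q : Finset (Finset (Fin n))} (h : Q ∈ Pt (Fin n))
    (hs : ∀ B ∈ Q, B.card ≤ T + 1) :
    pw (gN p ξ ρ T) Q = (1 - p) ^ inn Q * ξ ^ n * ρ ^ Q.card := by
  unfold pw
  have h1 : ∀ A ∈ Q, gN p ξ ρ T A.card = (1 - p) ^ (A.card.choose 2) * ξ ^ A.card * ρ := by
    intro A hA
    unfold gN
    rw [if_pos ⟨Finset.card_pos.2 ((nit_mem h).1 A hA), hs A hA⟩]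
  rw [Finset.prod_congr rfl h1, Finset.prod_mul_distrib, Finset.prod_mul_distrib,
    Finset.prod_pow_eq_pow_sum, Finset.prod_pow_eq_pow_sum, Finset.prod_const, nit_sumcard h]
  rfl

lemma gN_sum (p ρ : ℝ) (n T N : ℕ) :
    ∑ v ∈ range (T + 1 + 1), gN p (xi n T N) ρ T v / (v.factorial : ℝ) = ρ * Om p n T N := by
  unfold Om
  rw [Finset.mul_sum]
  symm
  have h1 : ∀ v ∈ Icc 1 (T + 1), ρ * (xi n T N ^ v * om p v) =
      gN p (xi n T N) ρ T v / (v.factorial : ℝ) := by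
    intro v hv
    rw [Finset.mem_Icc] at hv
    unfold gN om
    rw [if_pos hv]
    ring
  rw [Finset.sum_congr rfl h1]
  apply Finset.sum_subset
  · intro v hv
    rw [Finset.mem_Icc] at hv
    rw [Finset.mem_range]
    omega
  · intro v _ hv
    rw [Finset.mem_Icc] at hv
    unfold gN
    rw [if_neg hv, zero_div]

lemma gN_inner (p ρ a ζ z : ℝ) (n T R N c : ℕ) (hp : p < 1) (hn : 1 ≤ n) (hT : 1 ≤ T) (hN : 1 ≤ N)
    (hζ : ζ = (T : ℝ) * (n : ℝ) ^ (a - 1)) (hz : z = xi n T N * ζ) :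
    ∑ r ∈ Ioc R c, (c.choose r : ℝ) * (1 / (1 - p)) ^ (r.choose 2) / z ^ r *
        ∑ v ∈ Icc r (T + 1), gN p (xi n T N) ρ T v / ((v - r).factorial : ℝ) =
      ρ * (ζ ^ c)⁻¹ * SF p a n T R N c := by
  have hn0 : (0 : ℝ) < n := by exact_mod_cast hn
  have hT0 : (0 : ℝ) < T := by exact_mod_cast hT
  have hN0 : (0 : ℝ) < N := by exact_mod_cast hN
  have hξ0 : 0 < xi n T N := by unfold xi; positivity
  have hζ0 : 0 < ζ := by rw [hζ]; positivity
  have hq : 0 < 1 - p := by linarith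
  unfold SF
  rw [Finset.mul_sum]
  refine Finset.sum_congr rfl fun r hr => ?_
  rw [Finset.mul_sum, Finset.mul_sum]
  refine Finset.sum_congr rfl fun v hv => ?_
  rw [Finset.mem_Ioc] at hr
  rw [Finset.mem_Icc] at hv
  have h1 : 1 ≤ v ∧ v ≤ T + 1 := ⟨by omega, hv.2⟩
  unfold gN
  rw [if_pos h1, ← hζ, hz, mul_pow]
  have e1 : xi n T N ^ v = xi n T N ^ (v - r) * xi n T N ^ r := by
    rw [← pow_add]; congr 1; omega
  have e2 : ζ ^ c = ζ ^ (c - r) * ζ ^ r := by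
    rw [← pow_add]; congr 1; omega
  rw [e1, e2]
  have hf : (0 : ℝ) < ((v - r).factorial : ℝ) := by exact_mod_cast Nat.factorial_pos _
  have hζp : 0 < ζ ^ (c - r) := by positivity
  have hζp' : 0 < ζ ^ r := by positivity
  have hξp : 0 < xi n T N ^ r := by positivity
  have hqp : 0 < (1 - p) ^ (v.choose 2) := by positivity
  rw [one_div, inv_pow, inv_pow]
  generalize ζ ^ (c - r) = x1 at *
  generalize ζ ^ r = x2 at *
  generalize xi n T N ^ r = x3 at *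
  generalize (1 - p) ^ (v.choose 2) = x4 at *
  field_simp

lemma SF_nonneg (p a : ℝ) (n T R N c : ℕ) (hp : p < 1) : 0 ≤ SF p a n T R N c := by
  have hq : 0 < 1 - p := by linarith
  unfold SF xi
  refine Finset.sum_nonneg fun r _ => Finset.sum_nonneg fun v _ => ?_
  positivity

lemma Om_ge {p : ℝ} {n T N : ℕ} (hp : p < 1) : xi n T N ≤ Om p n T N := by
  have hq : 0 < 1 - p := by linarith
  unfold Om
  have h1 : xi n T N = xi n T N ^ 1 * om p 1 := by simp [om]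
  have h2 : ∀ v ∈ Icc 1 (T + 1), 0 ≤ xi n T N ^ v * om p v := by
    intro v _
    unfold xi om
    positivity
  calc xi n T N = xi n T N ^ 1 * om p 1 := h1
    _ ≤ _ := Finset.single_le_sum h2 (Finset.mem_Icc.2 ⟨le_rfl, by omega⟩)

open Classical in
theorem hNIT (hOVL : StOVL) (hGAM : StGAM) (hMKS : StMKS) : StNIT := by
  intro p ε hp hp1 hε hε1
  obtain ⟨n1, h1⟩ := hGAM p ε hp hp1 hε hε1
  obtain ⟨n2, h2⟩ := hMKS p ε hp hp1 hε hε1
  refine ⟨max (max n1 n2) 1, ?_⟩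
  intro n T N N₀ th a t P I hn hW hP hPc hI hNn hN₀ ht1 htn ha
  have hnn1 : n1 ≤ n := le_trans (le_trans (le_max_left _ _) (le_max_left _ _)) hn
  have hnn2 : n2 ≤ n := le_trans (le_trans (le_max_right _ _) (le_max_left _ _)) hn
  have hn1 : 1 ≤ n := le_trans (le_max_right _ _) hn
  obtain ⟨hT4, hT8, hTn, -⟩ := h2 n T th hnn2 hW
  have hn0 : (0 : ℝ) < n := by exact_mod_cast hn1
  have hn1' : (1 : ℝ) ≤ n := by exact_mod_cast hn1
  have hT1 : 1 ≤ T := by omega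
  have hT0 : (0 : ℝ) < T := by exact_mod_cast hT1
  have hT1' : (1 : ℝ) ≤ T := by exact_mod_cast hT1
  have hpe : p < 1 := by
    have : 0 < 1 / Real.exp 2 := by positivity
    linarith
  have hq : 0 < 1 - p := by linarith
  have hb1 : 1 ≤ 1 / (1 - p) := by
    rw [le_div_iff₀ hq]; linarith
  have hTN : (T : ℝ) ≤ N := by
    have e1 : (T : ℝ) ≤ (T : ℝ) ^ 8 := le_self_pow₀ hT1' (by norm_num)
    have e2 : (n : ℝ) ^ (ε / 8) ≤ (n : ℝ) ^ (1 / 2 + ε) :=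
      Real.rpow_le_rpow_of_exponent_le hn1' (by linarith)
    linarith
  have hTN' : T ≤ N := by exact_mod_cast hTN
  have hN1 : 1 ≤ N := le_trans hT1 hTN'
  have hN0 : (0 : ℝ) < N := by exact_mod_cast hN1
  have hξn : (n : ℝ) ≤ xi n T N := by
    unfold xi
    rw [le_div_iff₀ hT0]
    nlinarith
  have hξ0 : 0 < xi n T N := lt_of_lt_of_le hn0 hξn
  have hΩ : (n : ℝ) ≤ Om p n T N := le_trans hξn (Om_ge hpe)
  have hΩ0 : 0 < Om p n T N := lt_of_lt_of_le hn0 hΩ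
  have ht0 : 0 < t := by linarith
  have hSF : 0 ≤ ∏ C ∈ I, SF p a n T (RR ε T) N C.card :=
    Finset.prod_nonneg fun C _ => SF_nonneg p a n T _ N _ hpe
  rcases Finset.eq_empty_or_nonempty ((Pt (Fin n)).filter (fun Q => (∀ B ∈ Q, B.card ≤ T + 1) ∧
      (Q.card : ℝ) ≤ I.card + t ∧ bigS (RR ε T) P Q = I ∧ NR (RR ε T) P Q = N)) with hem | ⟨Q₀, hQ₀⟩
  · rw [hem, Finset.sum_empty]
    positivity
  -- sizes
  have hS : ∑ C ∈ I, C.card ≤ n := by
    calc ∑ C ∈ I, C.card ≤ ∑ C ∈ P, C.card :=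
          Finset.sum_le_sum_of_subset hI
      _ = n := nit_sumcard hP
  rw [Finset.mem_filter] at hQ₀
  obtain ⟨-, -, -, hQb, hQN⟩ := hQ₀
  have hmx : ∑ C ∈ I, mxb Q₀ C ≤ ∑ C ∈ I, C.card := Finset.sum_le_sum fun C _ => nit_mxb Q₀ C
  have hNR : N = n - ∑ C ∈ I, mxb Q₀ C := by
    rw [← hQN]
    unfold NR
    rw [hQb, Fintype.card_fin]
  have hNle : N ≤ n := by omega
  have hN₀N : N₀ ≤ N := by omega
  set S := ∑ C ∈ I, C.card with hSdef
  have hnS : n = N₀ + S := by omega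
  have hNd : N = N₀ + (N - N₀) := by omega
  have hdS : N - N₀ ≤ S := by omega
  -- parameters
  have h2R : T + 1 ≤ 2 * RR ε T := by
    have e1 : (1 / 2 + ε / 2) * (T : ℝ) ≤ (RR ε T : ℝ) := Nat.le_ceil _
    have e2 : (T : ℝ) < 2 * (RR ε T : ℝ) := by nlinarith
    have e3 : T < 2 * RR ε T := by exact_mod_cast e2
    omega
  have hρ0 : 0 < t / Om p n T N := by positivity
  have hρ1 : t / Om p n T N ≤ 1 := by
    rw [div_le_one hΩ0]; linarith
  have hρΩ : t / Om p n T N * Om p n T N = t := by field_simp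
  set ρ : ℝ := t / Om p n T N with hρ
  set ζ : ℝ := (T : ℝ) * (n : ℝ) ^ (a - 1) with hζ
  have hζ0 : 0 < ζ := by rw [hζ]; positivity
  set z : ℝ := xi n T N * ζ with hz
  have hz0 : 0 < z := by rw [hz]; positivity
  have hgnn : ∀ v, 0 ≤ gN p (xi n T N) ρ T v := by
    intro v
    unfold gN
    split_ifs
    · positivity
    · exact le_rfl
  have hg0 : gN p (xi n T N) ρ T 0 = 0 := by
    unfold gN
    rw [if_neg (by omega)]
  have hgz : ∀ v, T + 1 < v → gN p (xi n T N) ρ T v = 0 := by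
    intro v hv
    unfold gN
    rw [if_neg (by omega)]
  have hOV := hOVL n (T + 1) (RR ε T) N (gN p (xi n T N) ρ T) (1 / (1 - p)) (1 / (1 - p)) z P I
    hP hI hPc h2R hN1 hNle hgnn hg0 hgz hb1 le_rfl hz0
  have hK0 : 0 ≤ (xi n T N ^ n)⁻¹ * (ρ⁻¹) ^ ((I.card : ℝ) + t) := by positivity
  -- first step
  have step1 : ∑ Q ∈ (Pt (Fin n)).filter (fun Q => (∀ B ∈ Q, B.card ≤ T + 1) ∧
      (Q.card : ℝ) ≤ I.card + t ∧ bigS (RR ε T) P Q = I ∧ NR (RR ε T) P Q = N),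
      (1 - p) ^ inn Q * (1 / (1 - p)) ^ ovl P Q ≤
      (xi n T N ^ n)⁻¹ * (ρ⁻¹) ^ ((I.card : ℝ) + t) *
      ∑ Q ∈ (Pt (Fin n)).filter (fun Q => bigS (RR ε T) P Q = I ∧ NR (RR ε T) P Q = N),
      pw (gN p (xi n T N) ρ T) Q * (1 / (1 - p)) ^ ovB (RR ε T) P Q *
        (1 / (1 - p)) ^ (ovl P Q - ovB (RR ε T) P Q) := by
    rw [Finset.mul_sum]
    refine le_trans (Finset.sum_le_sum (g := fun Q => (xi n T N ^ n)⁻¹ *
      (ρ⁻¹) ^ ((I.card : ℝ) + t) * (pw (gN p (xi n T N) ρ T) Q *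
        (1 / (1 - p)) ^ ovB (RR ε T) P Q * (1 / (1 - p)) ^ (ovl P Q - ovB (RR ε T) P Q))) ?_)
      (Finset.sum_le_sum_of_subset_of_nonneg ?_ ?_)
    · intro Q hQ
      rw [Finset.mem_filter] at hQ
      obtain ⟨hQ1, hQ2, hQ3, -, -⟩ := hQ
      rw [gN_pw p _ ρ hQ1 hQ2]
      have e1 : (1 : ℝ) ≤ (ρ⁻¹) ^ ((I.card : ℝ) + t) * ρ ^ Q.card := by
        have e2 : (ρ⁻¹) ^ (Q.card : ℝ) ≤ (ρ⁻¹) ^ ((I.card : ℝ) + t) :=
          Real.rpow_le_rpow_of_exponent_le (by rw [← one_div, le_div_iff₀ hρ0]; linarith) hQ3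
        rw [Real.rpow_natCast] at e2
        calc (1 : ℝ) = (ρ⁻¹) ^ Q.card * ρ ^ Q.card := by
              rw [← mul_pow, inv_mul_cancel₀ hρ0.ne', one_pow]
          _ ≤ _ := mul_le_mul_of_nonneg_right e2 (by positivity)
      have e3 : (1 / (1 - p)) ^ ovl P Q ≤ (1 / (1 - p)) ^ ovB (RR ε T) P Q *
          (1 / (1 - p)) ^ (ovl P Q - ovB (RR ε T) P Q) := by
        rw [← pow_add]
        exact pow_le_pow_right₀ hb1 (by omega)
      have e4 : (xi n T N ^ n)⁻¹ * (ρ⁻¹) ^ ((I.card : ℝ) + t) * ((1 - p) ^ inn Q *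
          xi n T N ^ n * ρ ^ Q.card * (1 / (1 - p)) ^ ovB (RR ε T) P Q *
          (1 / (1 - p)) ^ (ovl P Q - ovB (RR ε T) P Q)) =
          ((ρ⁻¹) ^ ((I.card : ℝ) + t) * ρ ^ Q.card) * ((1 - p) ^ inn Q *
          ((1 / (1 - p)) ^ ovB (RR ε T) P Q *
          (1 / (1 - p)) ^ (ovl P Q - ovB (RR ε T) P Q))) := by
        have : xi n T N ^ n ≠ 0 := by positivity
        field_simp
      rw [e4]
      calc (1 - p) ^ inn Q * (1 / (1 - p)) ^ ovl P Q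
          ≤ (1 - p) ^ inn Q * ((1 / (1 - p)) ^ ovB (RR ε T) P Q *
          (1 / (1 - p)) ^ (ovl P Q - ovB (RR ε T) P Q)) :=
            mul_le_mul_of_nonneg_left e3 (by positivity)
        _ ≤ _ := le_mul_of_one_le_left (by positivity) e1
    · intro Q hQ
      rw [Finset.mem_filter] at hQ ⊢
      exact ⟨hQ.1, hQ.2.2.2⟩
    · intro Q _ _
      have : 0 ≤ pw (gN p (xi n T N) ρ T) Q := Finset.prod_nonneg fun A _ => hgnn _
      positivity
  refine le_trans step1 ?_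
  refine le_trans (mul_le_mul_of_nonneg_left hOV hK0) ?_
  have hprod : ∏ C ∈ I, ∑ r ∈ Ioc (RR ε T) C.card, (C.card.choose r : ℝ) *
      (1 / (1 - p)) ^ (r.choose 2) / z ^ r *
        ∑ v ∈ Icc r (T + 1), gN p (xi n T N) ρ T v / ((v - r).factorial : ℝ) =
      ρ ^ I.card * (ζ ^ S)⁻¹ * ∏ C ∈ I, SF p a n T (RR ε T) N C.card := by
    rw [Finset.prod_congr rfl fun C _ => gN_inner p ρ a ζ z n T (RR ε T) N C.card hpe hn1 hT1 hN1
      hζ hz, Finset.prod_mul_distrib, Finset.prod_mul_distrib, Finset.prod_const,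
      Finset.prod_inv_distrib, Finset.prod_pow_eq_pow_sum]
  rw [hprod, gN_sum, hρΩ]
  have hGG : GG (T + 1) (RR ε T) N (1 / (1 - p)) ≤ (T : ℝ) ^ 3 := by
    apply h1 n T N th (1 / (1 - p)) hnn1 hW hb1 _ hNn
    have e1 : 1 / (1 - p) = Real.exp (bb p) := by
      unfold bb
      rw [Real.exp_log (by positivity)]
    rw [e1]
    apply Real.exp_le_exp.2
    have e2 : 0 ≤ bb p := by
      unfold bb
      exact Real.log_nonneg hb1
    nlinarith
  have hexp : Real.exp (GG (T + 1) (RR ε T) N (1 / (1 - p)) + t) ≤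
      Real.exp ((T : ℝ) ^ 3) * Real.exp t := by
    rw [← Real.exp_add]
    exact Real.exp_le_exp.2 (by linarith)
  have halg := nit_alg n N N₀ S (N - N₀) T a (xi n T N) ζ z hn1 hT1 hN1 hnS hNd hdS rfl hζ hz
  have hcomb : (ρ⁻¹) ^ ((I.card : ℝ) + t) * ρ ^ I.card * Real.exp t =
      (Real.exp 1 * Om p n T N / t) ^ t := by
    rw [Real.rpow_add (by positivity), Real.rpow_natCast]
    have e1 : (ρ⁻¹) ^ I.card * (ρ⁻¹) ^ t * ρ ^ I.card = (ρ⁻¹) ^ t := by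
      have : (ρ⁻¹) ^ I.card * ρ ^ I.card = 1 := by
        rw [← mul_pow, inv_mul_cancel₀ hρ0.ne', one_pow]
      calc (ρ⁻¹) ^ I.card * (ρ⁻¹) ^ t * ρ ^ I.card
          = ((ρ⁻¹) ^ I.card * ρ ^ I.card) * (ρ⁻¹) ^ t := by ring
        _ = _ := by rw [this, one_mul]
    rw [e1]
    have e2 : Real.exp 1 * Om p n T N / t = ρ⁻¹ * Real.exp 1 := by
      rw [hρ, inv_div]; ring
    rw [e2, Real.mul_rpow (by positivity) (by positivity), Real.exp_one_rpow]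
  calc (xi n T N ^ n)⁻¹ * (ρ⁻¹) ^ ((I.card : ℝ) + t) *
        (Real.exp (GG (T + 1) (RR ε T) N (1 / (1 - p)) + t) * (N.factorial : ℝ) * z ^ (n - N) *
          (ρ ^ I.card * (ζ ^ S)⁻¹ * ∏ C ∈ I, SF p a n T (RR ε T) N C.card))
      ≤ (xi n T N ^ n)⁻¹ * (ρ⁻¹) ^ ((I.card : ℝ) + t) *
        (Real.exp ((T : ℝ) ^ 3) * Real.exp t * (N.factorial : ℝ) * z ^ (n - N) *
          (ρ ^ I.card * (ζ ^ S)⁻¹ * ∏ C ∈ I, SF p a n T (RR ε T) N C.card)) := by
        apply mul_le_mul_of_nonneg_left _ hK0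
        apply mul_le_mul_of_nonneg_right _ (by positivity)
        apply mul_le_mul_of_nonneg_right _ (by positivity)
        exact mul_le_mul_of_nonneg_right hexp (by positivity)
    _ = Real.exp ((T : ℝ) ^ 3) * ((ρ⁻¹) ^ ((I.card : ℝ) + t) * ρ ^ I.card * Real.exp t) *
        ((xi n T N ^ n)⁻¹ * (N.factorial : ℝ) * z ^ (n - N) * (ζ ^ S)⁻¹) *
          ∏ C ∈ I, SF p a n T (RR ε T) N C.card := by ring
    _ ≤ Real.exp ((T : ℝ) ^ 3) * ((ρ⁻¹) ^ ((I.card : ℝ) + t) * ρ ^ I.card * Real.exp t) *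
        (((T : ℝ) / n) ^ N₀ * (n : ℝ) ^ (-a * ((N : ℝ) - N₀))) *
          ∏ C ∈ I, SF p a n T (RR ε T) N C.card := by
        apply mul_le_mul_of_nonneg_right _ hSF
        exact mul_le_mul_of_nonneg_left halg (by positivity)
    _ = _ := by rw [hcomb]; ring

end Pool.Agent.Helper16.UX
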