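import Pool.Agent.Helper69.UX.StA

/-!
# Project UX (MP_e12aa9_pr), module PRQ
-/

set_option autoImplicit false

namespace Pool.Agent.Helper16.UX

open Finset Filter Pool.Agent.Helper82.CN Pool.Agent.Helper11.PV Pool.Agent.Helper69.VX
  Pool.Agent.Helper69.UX

open Classical in
lemma Pt_mem {V : Type} [Fintype V] {P : Finset (Finset V)} (h : P ∈ Pt V) :
    (∀ A ∈ P, A.Nonempty) ∧ (∀ A ∈ P, ∀ B ∈ P, A ≠ B → Disjoint A B) ∧
      ∀ v : V, ∃ A ∈ P, v ∈ A := by
  unfold Pt at h
  exact (Finset.mem_filter.1 h).2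

section pairs

variable {V : Type} [DecidableEq V]

/-- unordered pairs of distinct elements of `A` -/
def prs (A : Finset V) : Finset (Sym2 V) := A.offDiag.image Sym2.mk.uncurry

lemma mem_prs (A : Finset V) (u v : V) : s(u, v) ∈ prs A ↔ u ∈ A ∧ v ∈ A ∧ u ≠ v := by
  unfold prs
  rw [Finset.mem_image]
  constructor
  · rintro ⟨⟨a, b⟩, hab, h⟩
    rw [Finset.mem_offDiag] at hab
    simp only [Function.uncurry_apply_pair, Sym2.eq_iff] at h
    rcases h with ⟨rfl, rfl⟩ | ⟨rfl, rfl⟩
    · exact hab
    · exact ⟨hab.2.1, hab.1, hab.2.2.symm⟩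
  · rintro ⟨hu, hv, huv⟩
    exact ⟨(u, v), Finset.mem_offDiag.2 ⟨hu, hv, huv⟩, rfl⟩

lemma card_prs (A : Finset V) : (prs A).card = A.card.choose 2 := Sym2.card_image_offDiag A

lemma prs_inter (A B : Finset V) : prs A ∩ prs B = prs (A ∩ B) := by
  ext e
  induction e with | _ u v
  rw [Finset.mem_inter, mem_prs, mem_prs, mem_prs, Finset.mem_inter, Finset.mem_inter]
  tauto

lemma prs_disj {A B : Finset V} (h : Disjoint A B) : Disjoint (prs A) (prs B) := by
  rw [Finset.disjoint_iff_inter_eq_empty, prs_inter, Finset.disjoint_iff_inter_eq_empty.1 h]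
  rfl

/-- in-class pairs -/
def EP (P : Finset (Finset V)) : Finset (Sym2 V) := P.biUnion prs

lemma mem_EP (P : Finset (Finset V)) (u v : V) :
    s(u, v) ∈ EP P ↔ ∃ A ∈ P, u ∈ A ∧ v ∈ A ∧ u ≠ v := by
  unfold EP
  rw [Finset.mem_biUnion]
  simp only [mem_prs]

lemma prp_iff (ω : Sym2 V → Bool) (P : Finset (Finset V)) :
    prp ω P ↔ ∀ e ∈ EP P, ω e = false := by
  constructor
  · intro h e
    induction e with | _ u v
    intro he
    rw [mem_EP] at he
    obtain ⟨A, hA, hu, hv, huv⟩ := he
    exact h A hA u hu v hv huv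
  · intro h A hA u hu v hv huv
    exact h _ ((mem_EP P u v).2 ⟨A, hA, hu, hv, huv⟩)

lemma card_EP (P : Finset (Finset V)) (hP : ∀ A ∈ P, ∀ B ∈ P, A ≠ B → Disjoint A B) :
    (EP P).card = inn P := by
  unfold EP inn
  rw [Finset.card_biUnion]
  · exact Finset.sum_congr rfl fun A _ => card_prs A
  · intro A hA B hB hAB
    exact prs_disj (hP A hA B hB hAB)

lemma card_EP_inter (P Q : Finset (Finset V)) (hP : ∀ A ∈ P, ∀ B ∈ P, A ≠ B → Disjoint A B)
    (hQ : ∀ A ∈ Q, ∀ B ∈ Q, A ≠ B → Disjoint A B) : (EP P ∩ EP Q).card = ovl P Q := by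
  have h : EP P ∩ EP Q = P.biUnion fun A => Q.biUnion fun B => prs (A ∩ B) := by
    ext e
    simp only [EP, Finset.mem_inter, Finset.mem_biUnion, ← prs_inter]
    constructor
    · rintro ⟨⟨A, hA, h1⟩, B, hB, h2⟩
      exact ⟨A, hA, B, hB, h1, h2⟩
    · rintro ⟨A, hA, B, hB, h1, h2⟩
      exact ⟨⟨A, hA, h1⟩, B, hB, h2⟩
  rw [h, Finset.card_biUnion]
  · unfold ovl
    refine Finset.sum_congr rfl fun A _ => ?_
    rw [Finset.card_biUnion]
    · exact Finset.sum_congr rfl fun B _ => card_prs _
    · intro B hB B' hB' hBB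
      apply prs_disj
      exact (hQ B hB B' hB' hBB).mono Finset.inter_subset_right Finset.inter_subset_right
  · intro A hA A' hA' hAA
    rw [Function.onFun, Finset.disjoint_biUnion_left]
    intro B _
    rw [Finset.disjoint_biUnion_right]
    intro B' _
    apply prs_disj
    exact (hP A hA A' hA' hAA).mono Finset.inter_subset_left Finset.inter_subset_left

end pairs

section expect

variable {ι : Type} [Fintype ι] [DecidableEq ι]

/-- expectation of a product -/
lemma EE_prod (p : ℝ) (f : ι → Bool → ℝ) :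
    EE p (fun ω => ∏ i, f i (ω i)) = ∏ i, ((1 - p) * f i false + p * f i true) := by
  unfold EE
  have h := (Finset.prod_univ_sum (fun _ : ι => (univ : Finset Bool))
    (fun i b => bw p b * f i b)).symm
  simp only [Fintype.piFinset_univ] at h
  calc ∑ ω : ι → Bool, (∏ i, bw p (ω i)) * ∏ i, f i (ω i)
      = ∑ ω : ι → Bool, ∏ i, bw p (ω i) * f i (ω i) :=
        Finset.sum_congr rfl fun ω _ => Finset.prod_mul_distrib.symm
    _ = ∏ i, ∑ b, bw p b * f i b := h
    _ = _ := by
        refine Finset.prod_congr rfl fun i _ => ?_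
        simp [bw]
        ring

lemma prod_ite_const (S : Finset ι) (c : ℝ) : ∏ i, (if i ∈ S then c else 1) = c ^ S.card := by
  rw [Finset.prod_ite_mem, Finset.univ_inter, Finset.prod_const]

end expect

/-- indicator that a bit vanishes -/
noncomputable def z0 (b : Bool) : ℝ := if b = false then 1 else 0

/-- factor of the bit `e` -/
noncomputable def fb {α : Type} [DecidableEq α] (S : Finset α) (e : α) (b : Bool) : ℝ :=
  if e ∈ S then z0 b else 1

lemma prod_fb {α : Type} [Fintype α] [DecidableEq α] (S : Finset α) (ω : α → Bool) :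
    ∏ e, fb S e (ω e) = if (∀ e ∈ S, ω e = false) then (1 : ℝ) else 0 := by
  unfold fb
  rw [Finset.prod_ite_mem, Finset.univ_inter]
  by_cases h : ∀ e ∈ S, ω e = false
  · rw [if_pos h]
    exact Finset.prod_eq_one fun e he => by simp [z0, h e he]
  · rw [if_neg h]
    push Not at h
    obtain ⟨e, he, h1⟩ := h
    exact Finset.prod_eq_zero he (by simp [z0, h1])

open Classical in
theorem hPRQ : StPRQ := by
  intro p t n P Q hp hP hQ
  have hP' : ∀ A ∈ P, ∀ B ∈ P, A ≠ B → Disjoint A B := (Pt_mem hP).2.1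
  have hQ' : ∀ A ∈ Q, ∀ B ∈ Q, A ≠ B → Disjoint A B := (Pt_mem hQ).2.1
  clear hP hQ
  have hp0 : (1 : ℝ) - p ≠ 0 := by
    have : 0 < 1 - p := by linarith
    exact this.ne'
  have eP : ∀ (ω : Sym2 (Fin n) → Bool) (R : Finset (Finset (Fin n))),
      (if prp ω R then (1 : ℝ) else 0) = ∏ e, fb (EP R) e (ω e) := by
    intro ω R
    rw [prod_fb]
    by_cases h : prp ω R
    · rw [if_pos h, if_pos ((prp_iff ω R).1 h)]
    · rw [if_neg h, if_neg (fun h' => h ((prp_iff ω R).2 h'))]
  have eand : ∀ (a b : Prop), (if a ∧ b then (1 : ℝ) else 0) =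
      (if a then (1 : ℝ) else 0) * (if b then (1 : ℝ) else 0) := by
    intro a b
    by_cases ha : a <;> by_cases hb : b <;> simp [ha, hb]
  have hin : ∀ c : ℝ, ∏ e, (if e ∈ EP P ∧ e ∈ EP Q then c else 1) = c ^ ovl P Q := by
    intro c
    rw [← card_EP_inter P Q hP' hQ', ← prod_ite_const]
    refine Finset.prod_congr rfl fun e _ => ?_
    by_cases h : e ∈ EP P ∧ e ∈ EP Q
    · rw [if_pos h, if_pos (Finset.mem_inter.2 h)]
    · rw [if_neg h, if_neg (fun h' => h (Finset.mem_inter.1 h'))]
  have hfin : ∀ c : ℝ, ∏ e, ((if e ∈ EP P then 1 - p else 1) * (if e ∈ EP Q then 1 - p else 1) *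
      (if e ∈ EP P ∧ e ∈ EP Q then c else 1)) = (1 - p) ^ (inn P + inn Q) * c ^ ovl P Q := by
    intro c
    rw [Finset.prod_mul_distrib, Finset.prod_mul_distrib, prod_ite_const, prod_ite_const, hin,
      card_EP P hP', card_EP Q hQ', pow_add]
  refine ⟨?_, ?_, ?_⟩
  · simp only [eP]
    rw [EE_prod, ← card_EP P hP', ← prod_ite_const]
    refine Finset.prod_congr rfl fun e _ => ?_
    by_cases h : e ∈ EP P <;> simp [fb, z0, h]
  · simp only [eand, eP, ← Finset.prod_mul_distrib]
    rw [EE_prod p (fun e b => fb (EP P) e b * fb (EP Q) e b), ← hfin]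
    refine Finset.prod_congr rfl fun e _ => ?_
    by_cases h : e ∈ EP P <;> by_cases h' : e ∈ EP Q <;> simp [fb, z0, h, h']
  · simp only [eand, eP, ← Finset.prod_mul_distrib]
    have h1 : ∀ κ ω : Sym2 (Fin n) → Bool, EE p (fun η => ∏ e, fb (EP P) e (ω e) *
        fb (EP Q) e (mix {e | κ e = true} ω η e)) = ∏ e, (fb (EP P) e (ω e) *
          (if κ e = true then fb (EP Q) e (ω e) else
            ((1 - p) * fb (EP Q) e false + p * fb (EP Q) e true))) := by
      intro κ ω
      have h2 : ∀ η : Sym2 (Fin n) → Bool, ∏ e, fb (EP P) e (ω e) *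
          fb (EP Q) e (mix {e | κ e = true} ω η e) = ∏ e, (fun (e : Sym2 (Fin n)) (b : Bool) =>
            fb (EP P) e (ω e) * fb (EP Q) e (if κ e = true then ω e else b)) e (η e) := by
        intro η
        refine Finset.prod_congr rfl fun e _ => ?_
        by_cases h : κ e = true
        · have hm : e ∈ {e : Sym2 (Fin n) | κ e = true} := h
          simp only [mix_pos hm, if_pos h]
        · have hm : e ∉ {e : Sym2 (Fin n) | κ e = true} := h
          simp only [mix_neg hm, if_neg h]
      refine (congrArg (EE p) (funext h2)).trans ?_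
      refine (EE_prod p (fun (e : Sym2 (Fin n)) (b : Bool) =>
            fb (EP P) e (ω e) * fb (EP Q) e (if κ e = true then ω e else b))).trans ?_
      refine Finset.prod_congr rfl fun e _ => ?_
      by_cases h : κ e = true
      · simp only [h, if_true]; ring
      · simp only [h]; simp; ring
    simp only [h1]
    have h3 : ∀ κ : Sym2 (Fin n) → Bool, EE p (fun ω => ∏ e, (fb (EP P) e (ω e) *
          (if κ e = true then fb (EP Q) e (ω e) else
            ((1 - p) * fb (EP Q) e false + p * fb (EP Q) e true)))) =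
        ∏ e, ((1 - p) * (fb (EP P) e false * (if κ e = true then fb (EP Q) e false else
            ((1 - p) * fb (EP Q) e false + p * fb (EP Q) e true))) +
          p * (fb (EP P) e true * (if κ e = true then fb (EP Q) e true else
            ((1 - p) * fb (EP Q) e false + p * fb (EP Q) e true)))) := by
      intro κ
      exact EE_prod p (fun e b => fb (EP P) e b *
          (if κ e = true then fb (EP Q) e b else
            ((1 - p) * fb (EP Q) e false + p * fb (EP Q) e true)))
    simp only [h3]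
    rw [EE_prod (1 - t) (fun e c => (1 - p) * (fb (EP P) e false * (if c = true then fb (EP Q) e false else
            ((1 - p) * fb (EP Q) e false + p * fb (EP Q) e true))) +
          p * (fb (EP P) e true * (if c = true then fb (EP Q) e true else
            ((1 - p) * fb (EP Q) e false + p * fb (EP Q) e true)))), ← hfin]
    refine Finset.prod_congr rfl fun e _ => ?_
    by_cases h : e ∈ EP P
    · by_cases h' : e ∈ EP Q
      · simp [fb, z0, h, h']
        field_simp
        ring
      · simp [fb, z0, h, h']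
        ring
    · by_cases h' : e ∈ EP Q
      · simp [fb, z0, h, h']
        ring
      · simp [fb, h, h']

end Pool.Agent.Helper16.UX
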